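import Pool.Agent.Y674.TR.Stm

/-!
The field generated by a root (job TR-PROD).
-/

set_option autoImplicit false

namespace Pool.Agent.Y681.TR

open Polynomial NumberField Pool.Agent.Y674.TR

lemma F_monic {e H : ℕ} {φ ψ : ℤ[X]} (h : Dat e φ ψ H) (x : ℤ) :
    (F φ ψ x).Monic ∧ (F φ ψ x).natDegree = 2 * e + 1 := by
  have h1 : (C x * ψ ^ 2).natDegree ≤ 2 * e := by
    refine (natDegree_C_mul_le _ _).trans ?_
    refine natDegree_pow_le.trans ?_
    rw [h.degψ]
  have h2 : (C x * ψ ^ 2).natDegree < φ.natDegree := by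
    rw [h.deg]
    omega
  refine ⟨h.mon.sub_of_left (degree_lt_degree h2), ?_⟩
  unfold F
  rw [natDegree_sub_eq_left_of_natDegree_lt h2, h.deg]

theorem prod : PROD := by
  intro e φ ψ H he hD x hirr K _ _ t ht
  obtain ⟨hmon, hdeg⟩ := F_monic hD x
  obtain ⟨f, hf⟩ : ∃ f, f = F φ ψ x := ⟨_, rfl⟩
  have hft : aeval t f = 0 := by
    rw [hf, F, map_sub, map_mul, map_pow, ht, aeval_C]
    simp
  rw [← hf] at hmon hdeg hirr ⊢
  have hGmon : (f.map (Int.castRingHom ℚ)).Monic := hmon.map _
  have hGt : aeval t (f.map (Int.castRingHom ℚ)) = 0 := by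
    have : aeval t (f.map (algebraMap ℤ ℚ)) = aeval t f := aeval_map_algebraMap ℚ t f
    rw [← hft, ← this]
    rfl
  have hmin : f.map (Int.castRingHom ℚ) = minpoly ℚ t :=
    minpoly.eq_of_irreducible_of_monic hirr hGt hGmon
  have hint : IsIntegral ℚ t := ⟨_, hGmon, by simpa [aeval_def] using hGt⟩
  have hgen : algebraMap (IntermediateField.adjoin ℚ {t}) K
      (IntermediateField.AdjoinSimple.gen ℚ t) = t :=
    IntermediateField.AdjoinSimple.algebraMap_gen ℚ t
  have hgf : aeval (IntermediateField.AdjoinSimple.gen ℚ t) f = 0 := by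
    apply (algebraMap (IntermediateField.adjoin ℚ {t}) K).injective
    rw [map_zero, ← aeval_algebraMap_apply, hgen, hft]
  have hgint : IsIntegral ℤ (IntermediateField.AdjoinSimple.gen ℚ t) :=
    ⟨f, hmon, by simpa [aeval_def] using hgf⟩
  refine ⟨IntermediateField.adjoin ℚ {t}, ⟨IntermediateField.AdjoinSimple.gen ℚ t, hgint⟩, ?_, ?_⟩
  · rw [IntermediateField.adjoin.finrank hint, ← hmin, hmon.natDegree_map, hdeg]
  · have hcard : Fintype.card (IntermediateField.adjoin ℚ {t} →+* ℂ) = 2 * e + 1 := by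
      rw [NumberField.Embeddings.card, IntermediateField.adjoin.finrank hint, ← hmin,
        hmon.natDegree_map, hdeg]
    have hinj : Function.Injective (fun σ : IntermediateField.adjoin ℚ {t} →+* ℂ =>
        σ (IntermediateField.AdjoinSimple.gen ℚ t)) := by
      intro σ1 σ2 h
      have h1 : (σ1.toRatAlgHom : IntermediateField.adjoin ℚ {t} →ₐ[ℚ] ℂ) =
          σ2.toRatAlgHom := by
        apply (IntermediateField.adjoin.powerBasis hint).algHom_ext
        rw [IntermediateField.adjoin.powerBasis_gen]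
        exact h
      ext a
      exact congrArg (fun g : IntermediateField.adjoin ℚ {t} →ₐ[ℚ] ℂ => g a) h1
    have hPmon : (f.map (Int.castRingHom ℂ)).Monic := hmon.map _
    have hroot : ∀ σ : IntermediateField.adjoin ℚ {t} →+* ℂ,
        (X - C (σ (IntermediateField.AdjoinSimple.gen ℚ t))) ∣ f.map (Int.castRingHom ℂ) := by
      intro σ
      rw [dvd_iff_isRoot, IsRoot.def, eval_map]
      have h1 : σ (aeval (IntermediateField.AdjoinSimple.gen ℚ t) f) = 0 := by
        rw [hgf, map_zero]
      rw [aeval_def, hom_eval₂] at h1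
      rw [← h1]
      congr 1
      exact Subsingleton.elim _ _
    have hdvd : (∏ σ : IntermediateField.adjoin ℚ {t} →+* ℂ,
        (X - C (σ (IntermediateField.AdjoinSimple.gen ℚ t)))) ∣ f.map (Int.castRingHom ℂ) :=
      Fintype.prod_dvd_of_coprime (pairwise_coprime_X_sub_C hinj) hroot
    have hmon2 : (∏ σ : IntermediateField.adjoin ℚ {t} →+* ℂ,
        (X - C (σ (IntermediateField.AdjoinSimple.gen ℚ t)))).Monic :=
      monic_prod_of_monic _ _ fun σ _ => monic_X_sub_C _
    refine eq_of_monic_of_dvd_of_natDegree_le hmon2 hPmon hdvd ?_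
    rw [hmon.natDegree_map, hdeg, natDegree_prod_of_monic _ _ fun σ _ => monic_X_sub_C _]
    simp [hcard]

end Pool.Agent.Y681.TR
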